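import Pool.Agent.H12.KTH.Stmts
import Pool.Agent.H24.KTH.Geo

/-!
# KTH: ETA
-/

set_option autoImplicit false

namespace Pool.KTH

open Finset Real
open Pool.Agent.H49.Ent Pool.Agent.H32.Dense
open Pool.Agent.H24.KTH (dsv lvv lev cap Yf kp LevOne LevPlus LevZero sz Pt PT7Stmt VECStmt)

theorem eta (h1 : PT7Stmt) (h2 : VECStmt) (h3 : CGPStmt) : ETAStmt := by
  intro d _
  obtain ⟨C₁, hC₁⟩ := h1 h2 d
  obtain ⟨C₂, hC₂0, hC₂⟩ := h3 d
  refine ⟨1 + |C₁| * (C₂ + 1), by positivity, fun J F L sb e hF => ?_⟩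
  have he := hF.e0
  have hpt : Pt (2 ^ J) F.q F.Z F.v₂ F.u₂ F.v₁ F.tr F.c₂ (fun w => (F.Y w).2) := by
    refine ⟨⟨by positivity, F.hq, F.h1, F.hv₂, F.hu₂, F.htr⟩, F.hv₁, fun w hw k => ?_⟩
    have hfl : (F.Y w).2 k = ⌊pos (2 ^ J) (F.u₂ w) (F.v₂ w) (F.tr w) k +
        (F.c₂ w : ℝ) / ((2 ^ J : ℕ) : ℝ) * F.v₁ w k⌋ := rfl
    rw [hfl, abs_le]
    have ha := Int.floor_le (pos (2 ^ J) (F.u₂ w) (F.v₂ w) (F.tr w) k +
      (F.c₂ w : ℝ) / ((2 ^ J : ℕ) : ℝ) * F.v₁ w k)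
    have hb := Int.lt_floor_add_one (pos (2 ^ J) (F.u₂ w) (F.v₂ w) (F.tr w) k +
      (F.c₂ w : ℝ) / ((2 ^ J : ℕ) : ℝ) * F.v₁ w k)
    constructor <;> linarith
  have hm := hC₁ F.Ω F.ζ J F.q F.Z F.v₂ F.u₂ F.v₁ F.tr F.c₂ (fun w => (F.Y w).2) hpt
  have hc := hC₂ J F L sb e hF
  have e1 : F.et = CH F.q F.v₁ (fun w => ((F.tr w + F.c₂ w, (F.Y w).2), F.v₂ w, F.Z w)) := by
    refine le_antisymm (CH_mono_cond F.hq ?_) (CH_mono_cond F.hq ?_)
    · intro w w' _ _ h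
      simp only [Prod.mk.injEq] at h
      obtain ⟨h1, h2, h3⟩ := h
      have h4 : F.tr w + F.c₂ w = F.tr w' + F.c₂ w' := congrArg Prod.fst h2
      have h5 : (F.Y w).2 = (F.Y w').2 := congrArg Prod.snd h2
      simp only [Prod.mk.injEq]
      exact ⟨⟨h4, h5⟩, h1, h3⟩
    · intro w w' _ _ h
      simp only [Prod.mk.injEq] at h
      obtain ⟨⟨h1, h2⟩, h3, h4⟩ := h
      simp only [Prod.mk.injEq]
      exact ⟨h3, Prod.ext h1 h2, h4⟩
  have hsz : Ex F.q (fun w => sz (2 ^ J) (F.c₂ w)) = F.big F.c₂ + F.sml F.c₂ := by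
    unfold sz Cf.big Cf.sml
    rw [Ex_add]
    congr 1
    · congr 1
      funext w
      push_cast
      rfl
    · congr 1
      funext w
      rw [max_comm]
      push_cast
      rfl
  have hbig : 0 ≤ F.big F.c := by
    refine Ex_nonneg F.hq fun w _ => Real.log_nonneg ?_
    have : 0 ≤ |(F.c w : ℝ)| / 2 ^ J := by positivity
    linarith
  have hsml : 0 ≤ F.sml F.c := by
    refine Ex_nonneg F.hq fun w _ => Real.log_nonneg ?_
    have : 0 ≤ (2 : ℝ) ^ J / max 1 |(F.c w : ℝ)| := by positivity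
    linarith
  have hsz0 : 0 ≤ Ex F.q (fun w => sz (2 ^ J) (F.c₂ w)) := by
    refine Ex_nonneg F.hq fun w _ => ?_
    unfold sz
    have a1 : 0 ≤ |((F.c₂ w : ℤ) : ℝ)| / ((2 ^ J : ℕ) : ℝ) := by positivity
    have a2 : 0 ≤ ((2 ^ J : ℕ) : ℝ) / max |((F.c₂ w : ℤ) : ℝ)| 1 := by positivity
    exact add_nonneg (Real.log_nonneg (by linarith)) (Real.log_nonneg (by linarith))
  have her : 1 ≤ er J e := by
    unfold er
    have : 0 ≤ Real.log ((J : ℝ) + 2) := Real.log_nonneg (by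
      have : (0 : ℝ) ≤ J := Nat.cast_nonneg J
      linarith)
    linarith
  have her2 : Real.log ((J : ℝ) + 2) ≤ er J e := by
    unfold er
    linarith
  have hX : Ex F.q (fun w => sz (2 ^ J) (F.c₂ w)) ≤ C₂ * er J e := by
    rw [hsz]
    linarith
  have hy : Ex F.q (fun w => lvv (2 ^ J) (F.v₁ w) (F.v₂ w)) = F.y12 := rfl
  rw [← e1, hy] at hm
  have h5 : C₁ * (Ex F.q (fun w => sz (2 ^ J) (F.c₂ w)) + 1) ≤ |C₁| * ((C₂ + 1) * er J e) := by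
    calc C₁ * (Ex F.q (fun w => sz (2 ^ J) (F.c₂ w)) + 1)
        ≤ |C₁| * (Ex F.q (fun w => sz (2 ^ J) (F.c₂ w)) + 1) :=
          mul_le_mul_of_nonneg_right (le_abs_self _) (by linarith)
      _ ≤ |C₁| * ((C₂ + 1) * er J e) :=
          mul_le_mul_of_nonneg_left (by nlinarith) (abs_nonneg _)
  show F.et + F.y12 - lm J ≤ _
  unfold lm
  nlinarith

end Pool.KTH
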