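import Pool.Agent.H12.KTH.Stmts

/-!
# KTH: LVA (level one)
-/

set_option autoImplicit false

namespace Pool.KTH

open Finset Real
open Pool.Agent.H49.Ent Pool.Agent.H32.Dense
open Pool.Agent.H24.KTH (dsv lvv lev cap Yf kp LevOne LevPlus LevZero)

/-- The error term is small. -/
theorem lva_er {C θ₂ : ℝ} (hC : 0 ≤ C) (hθ : 0 < θ₂) : ∃ θ : ℝ, 0 < θ ∧ ∃ J₀ : ℕ, ∀ J : ℕ, J₀ ≤ J →
    C * er J (10 * (θ * J)) ≤ θ₂ * lm J := by
  have hl := Real.log_pos (show (1 : ℝ) < 2 by norm_num)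
  obtain ⟨θ, hθ0, hθ1⟩ : ∃ θ : ℝ, 0 < θ ∧ C * (10 * θ) ≤ θ₂ * Real.log 2 / 2 := by
    refine ⟨θ₂ * Real.log 2 / (20 * (C + 1)), by positivity, ?_⟩
    have h1 : C * (10 * (θ₂ * Real.log 2 / (20 * (C + 1)))) =
        (C / (C + 1)) * (θ₂ * Real.log 2 / 2) := by
      field_simp
      ring
    rw [h1]
    have h2 : C / (C + 1) ≤ 1 := by
      rw [div_le_one (by linarith)]
      linarith
    have h3 : 0 ≤ θ₂ * Real.log 2 / 2 := by positivity
    nlinarith
  have h4 : Filter.Tendsto (fun J : ℕ => (1 + Real.log ((J : ℝ) + 2)) / J) Filter.atTop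
      (nhds 0) := by
    have h5 : Filter.Tendsto (fun J : ℕ => 1 / (J : ℝ)) Filter.atTop (nhds 0) :=
      tendsto_one_div_atTop_nhds_zero_nat
    have h6 : Filter.Tendsto (fun J : ℕ => Real.log ((J : ℝ) + 2) / J) Filter.atTop (nhds 0) := by
      have h7 : Filter.Tendsto (fun x : ℝ => Real.log x / x) Filter.atTop (nhds 0) := by
        simpa using (Real.isLittleO_log_id_atTop).tendsto_div_nhds_zero
      have h8 : Filter.Tendsto (fun J : ℕ => (J : ℝ) + 2) Filter.atTop Filter.atTop :=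
        Filter.tendsto_atTop_add_const_right _ _ tendsto_natCast_atTop_atTop
      have h9 := h7.comp h8
      have h10 : Filter.Tendsto (fun J : ℕ => ((J : ℝ) + 2) / J) Filter.atTop (nhds 1) := by
        have h11 : Filter.Tendsto (fun J : ℕ => 1 + 2 * (1 / (J : ℝ))) Filter.atTop
            (nhds (1 + 2 * 0)) := (h5.const_mul 2).const_add 1
        rw [mul_zero, add_zero] at h11
        refine h11.congr' ?_
        filter_upwards [Filter.eventually_gt_atTop 0] with J hJ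
        have : (J : ℝ) ≠ 0 := by exact_mod_cast hJ.ne'
        field_simp
      have h12 := h9.mul h10
      rw [zero_mul] at h12
      refine h12.congr' ?_
      filter_upwards [Filter.eventually_gt_atTop 0] with J hJ
      have h13 : (J : ℝ) ≠ 0 := by exact_mod_cast hJ.ne'
      have h14 : (J : ℝ) + 2 ≠ 0 := by positivity
      simp only [Function.comp]
      field_simp
    have h7 := h5.add h6
    rw [add_zero] at h7
    refine h7.congr fun J => ?_
    ring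
  have h5 : 0 < θ₂ * Real.log 2 / (2 * (C + 1)) := by positivity
  obtain ⟨J₀, hJ₀⟩ := Filter.eventually_atTop.1
    ((h4.eventually_lt_const h5).and (Filter.eventually_gt_atTop 0))
  refine ⟨θ, hθ0, J₀, fun J hJ => ?_⟩
  obtain ⟨h6, h7⟩ := hJ₀ J hJ
  have hJp : (0 : ℝ) < J := by exact_mod_cast h7
  rw [div_lt_iff₀ hJp] at h6
  have h8 : C * (1 + Real.log ((J : ℝ) + 2)) ≤ θ₂ * Real.log 2 / 2 * J := by
    have h9 : (C + 1) * (1 + Real.log ((J : ℝ) + 2)) ≤ θ₂ * Real.log 2 / 2 * J := by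
      calc (C + 1) * (1 + Real.log ((J : ℝ) + 2))
          ≤ (C + 1) * (θ₂ * Real.log 2 / (2 * (C + 1)) * J) :=
            mul_le_mul_of_nonneg_left h6.le (by linarith)
        _ = θ₂ * Real.log 2 / 2 * J := by field_simp
    have h10 : 0 ≤ Real.log ((J : ℝ) + 2) := Real.log_nonneg (by linarith)
    nlinarith
  unfold er lm
  nlinarith

theorem lva (h1 : CFGStmt) (h2 : SUMStmt) (h3 : DRVStmt) (h4 : PURStmt) (h5 : TRVStmt) :
    LVAStmt := by
  intro d hd ε hε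
  obtain ⟨θ₁, hθ₁, J₁, hs⟩ := h2 d hd ε hε
  obtain ⟨C, hC0, hC⟩ := h3 d
  obtain ⟨θ₂, hθ₂, J₂, hp⟩ := h4 d hd ε hε
  obtain ⟨θ₃, hθ₃, J₃, he3⟩ := lva_er hC0 hθ₂
  obtain ⟨θ₄, hθ₄, J₄, he4⟩ := lva_er (C := 1) zero_le_one hθ₁
  have hl := Real.log_pos (show (1 : ℝ) < 2 by norm_num)
  refine ⟨min θ₃ θ₄, lt_min hθ₃ hθ₄, max (max J₁ J₂) (max J₃ J₄), ?_⟩
  intro J hJ Ω _ ζ p Z v u τ hfam hK
  have hJ1 : J₁ ≤ J := (le_max_left _ _).trans ((le_max_left _ _).trans hJ)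
  have hJ2 : J₂ ≤ J := (le_max_right _ _).trans ((le_max_left _ _).trans hJ)
  have hJ3 : J₃ ≤ J := (le_max_left _ _).trans ((le_max_right _ _).trans hJ)
  have hJ4 : J₄ ≤ J := (le_max_right _ _).trans ((le_max_right _ _).trans hJ)
  have hJ0 : (0 : ℝ) ≤ J := Nat.cast_nonneg J
  have hlm : 0 ≤ lm J := mul_nonneg hJ0 hl.le
  obtain ⟨θ, hθ⟩ : ∃ θ, θ = min θ₃ θ₄ := ⟨_, rfl⟩
  rw [← hθ] at hK
  have hθ0 : 0 < θ := hθ ▸ lt_min hθ₃ hθ₄
  obtain ⟨G, hG⟩ : ∃ G : Fm d J, G = ⟨Ω, ζ, inferInstance, p, Z, v, u, τ, hfam⟩ := ⟨_, rfl⟩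
  have hTm : G.Tm (θ * J) := by
    subst hG
    have hlog : Real.log ((2 ^ J : ℕ) : ℝ) = lm J := by
      unfold lm
      push_cast
      rw [Real.log_pow]
    have hK' : Real.log ((2 ^ J : ℕ) : ℝ) - CH p τ (fun ω => (v ω, Z ω)) ≤ θ * J := hK
    show lm J - θ * J ≤ CH p τ (fun ω => (v ω, Z ω))
    rw [hlog] at hK'
    linarith
  obtain ⟨F, hF, hy, -⟩ := h1 d J G (θ * J) hTm
  have hermono : ∀ θ' : ℝ, θ ≤ θ' → er J (10 * (θ * J)) ≤ er J (10 * (θ' * J)) := by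
    intro θ' h
    unfold er
    nlinarith [mul_le_mul_of_nonneg_right h hJ0]
  have e1 : 10 * (θ * J) ≤ θ₁ * lm J := by
    have a := he4 J hJ4
    have b := hermono θ₄ (hθ ▸ min_le_right _ _)
    have c : 10 * (θ * J) ≤ er J (10 * (θ * J)) := by
      unfold er
      have : 0 ≤ Real.log ((J : ℝ) + 2) := Real.log_nonneg (by linarith)
      linarith
    linarith
  have e2 : C * er J (10 * (θ * J)) ≤ θ₂ * lm J :=
    (mul_le_mul_of_nonneg_left (hermono θ₃ (hθ ▸ min_le_left _ _)) hC0).trans (he3 J hJ3)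
  have k1 : DD aa * (G.L + 2 * lm J) - (PP aa * G.sb + (aa - 1) * lm J + kh aa * F.y01 -
      aa * (aa * F.FL.S - F.FL.L) - (aa - 1) * (aa * F.FI.S - F.FI.L)) ≤ ε * lm J :=
    hs J hJ1 F G.L G.sb (10 * (θ * J)) e1 hF
  obtain ⟨t1, t2⟩ := hC J F G.L G.sb (10 * (θ * J)) hF
  have k2 := hp J hJ2 F.FL _ e2 t1
  have k3 := hp J hJ2 F.FI _ e2 t2
  obtain ⟨k4, -, k5, -, -, -⟩ := h5.2 d J G
  rw [hy] at k1
  have gL : CH p v Z = G.L := by subst hG; rfl
  have gS : Sf (2 ^ J) p Z v u τ = G.S := by subst hG; rfl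
  have gY : Yf (2 ^ J) p Z v u τ = G.Y := by subst hG; rfl
  rw [gL, gS, gY]
  have hkp : kp aa = kh aa / DD aa := rfl
  have hDD : (0 : ℝ) < DD aa := by unfold DD aa; norm_num
  have hJlm : (J : ℝ) * Real.log 2 = lm J := rfl
  rw [hJlm]
  have hlmJ : lm J ≤ J := by
    have := Real.log_two_lt_d9
    unfold lm
    nlinarith
  -- the sum of the inequalities
  have k6 : DD aa * G.L ≤ PP aa * G.S - kh aa * (lm J - G.Y) + (1 + (2 * aa - 1)) * (ε * lm J) := by
    have hP : PP aa * G.sb ≤ PP aa * (G.S + lm J) :=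
      mul_le_mul_of_nonneg_left k5 (by unfold PP aa; norm_num)
    have h6 : aa * (F.FL.L - aa * F.FL.S) ≤ aa * (ε * lm J) :=
      mul_le_mul_of_nonneg_left (by linarith) (by unfold aa; norm_num)
    have h7 : (aa - 1) * (F.FI.L - aa * F.FI.S) ≤ (aa - 1) * (ε * lm J) :=
      mul_le_mul_of_nonneg_left (by linarith) (by unfold aa; norm_num)
    have h8 : PP aa + (aa - 1) - 2 * DD aa = - kh aa := by
      unfold PP DD kh
      ring
    have h9 : PP aa * lm J + (aa - 1) * lm J - 2 * DD aa * lm J = - kh aa * lm J := by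
      rw [← h8]; ring
    linarith
  have h10 : PP aa ≤ aa * DD aa := by
    unfold PP DD aa
    norm_num
  have h11 : PP aa * G.S ≤ aa * DD aa * G.S := mul_le_mul_of_nonneg_right h10 k4
  have h12 : (1 + (2 * aa - 1)) * (ε * lm J) ≤ DD aa * (ε * J) := by
    have a1 : ε * lm J ≤ ε * J := mul_le_mul_of_nonneg_left hlmJ hε.le
    have a2 : (1 + (2 * aa - 1)) ≤ DD aa := by unfold DD aa; norm_num
    calc (1 + (2 * aa - 1)) * (ε * lm J) ≤ DD aa * (ε * lm J) :=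
          mul_le_mul_of_nonneg_right a2 (mul_nonneg hε.le hlm)
      _ ≤ DD aa * (ε * J) := mul_le_mul_of_nonneg_left a1 hDD.le
  have h13 : DD aa * G.L ≤ DD aa * (aa * G.S - kp aa * (lm J - G.Y) + ε * J) := by
    have h14 : DD aa * (aa * G.S - kp aa * (lm J - G.Y) + ε * J) =
        aa * DD aa * G.S - kh aa * (lm J - G.Y) + DD aa * (ε * J) := by
      rw [hkp]
      field_simp
    rw [h14]
    linarith
  exact le_of_mul_le_mul_left h13 hDD

end Pool.KTH
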